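import Pool.Agent.Helper56.RZ.GoalsB

/-! # Project RZ, packets T1 and T2: tangent spaces and derivatives of maps of `M` -/

set_option autoImplicit false

open Set Filter Topology

open scoped ContDiff

namespace Pool.Agent.Helper57.RZ

open Pool.Agent.Helper56.RZ

theorem tan_ext {K L : ℕ} {M : Set (E K)} {x : E K} {f : E K → E L} {A B : E K →L[ℝ] E L}
    (hA : HasFDerivWithinAt f A M x) (hB : HasFDerivWithinAt f B M x) {v : E K}
    (hv : v ∈ tan M x) : A v = B v := by
  have h1 : EqOn A B (tangentConeAt ℝ M x) := hA.unique_on hB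
  exact LinearMap.eqOn_span (f := (A : E K →ₗ[ℝ] E L)) (g := (B : E K →ₗ[ℝ] E L)) h1 hv

theorem tan_map {K L : ℕ} {M : Set (E K)} {M' : Set (E L)} {x : E K} {f : E K → E L}
    {A : E K →L[ℝ] E L} (hA : HasFDerivWithinAt f A M x) (hf : MapsTo f M M') {v : E K}
    (hv : v ∈ tan M x) : A v ∈ tan M' (f x) := by
  have h1 : MapsTo A (tangentConeAt ℝ M x) (tangentConeAt ℝ (f '' M) (f x)) :=
    hA.mapsTo_tangent_cone
  have h2 : tangentConeAt ℝ (f '' M) (f x) ⊆ tangentConeAt ℝ M' (f x) :=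
    tangentConeAt_mono (image_subset_iff.2 hf)
  have h3 : tan M x ≤ (tan M' (f x)).comap (A : E K →ₗ[ℝ] E L) := by
    refine Submodule.span_le.2 fun w hw => ?_
    exact Submodule.subset_span (h2 (h1 hw))
  exact h3 hv

theorem Pi_mem {K : ℕ} (M : Set (E K)) (x v : E K) : Pi M x v ∈ tan M x :=
  Submodule.starProjection_apply_mem _ _

theorem Pi_self {K : ℕ} {M : Set (E K)} {x v : E K} (hv : v ∈ tan M x) : Pi M x v = v :=
  Submodule.starProjection_eq_self_iff.2 hv

theorem t2 : StmtT2 := by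
  intro K M f g x hx
  have ha : ∀ (f : E K → E K) (x : E K) (A : End K), HasFDerivWithinAt f A M x →
      A * Pi M x = der M f x := by
    intro f x A hA
    ext1 v
    exact tan_ext hA hA.differentiableWithinAt.hasFDerivWithinAt (Pi_mem M x v)
  have hb : ∀ (f : E K → E K) (x : E K), MapsTo f M M → DifferentiableWithinAt ℝ f M x →
      Pi M (f x) * der M f x = der M f x := by
    intro f x hm hd
    ext1 v
    exact Pi_self (tan_map hd.hasFDerivWithinAt hm (Pi_mem M x v))
  refine ⟨ha f x, hb f x, fun hm hg hf => ?_, ?_, fun h => ?_⟩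
  · have h1 := hf.hasFDerivWithinAt.comp x hg.hasFDerivWithinAt hm
    rw [← ha _ _ _ h1]
    have h2 := hb g x hm hg
    calc ((fderivWithin ℝ f M (g x)).comp (fderivWithin ℝ g M x)) * Pi M x
        = fderivWithin ℝ f M (g x) * der M g x := rfl
      _ = fderivWithin ℝ f M (g x) * (Pi M (g x) * der M g x) := by rw [h2]
      _ = der M f (g x) * der M g x := rfl
  · rw [← ha id x 1 (hasFDerivWithinAt_id x M), one_mul]
  · unfold der
    rw [fderivWithin_congr h (h x hx)]

theorem t1 : StmtT1 := by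
  intro N K M c z hz
  obtain ⟨hM, hW⟩ := c.mapsψ z hz
  have hVn : c.V ∈ 𝓝 z := c.openV.mem_nhds hz
  have hWn : c.W ∈ 𝓝 (c.ψ z) := c.openW.mem_nhds hW
  have hφ : HasFDerivAt c.φ (fderiv ℝ c.φ (c.ψ z)) (c.ψ z) :=
    ((c.smoothφ.contDiffAt hWn).differentiableAt (by simp)).hasFDerivAt
  have hψ : HasFDerivAt c.ψ (fderiv ℝ c.ψ z) z :=
    ((c.smoothψ.contDiffAt hVn).differentiableAt (by simp)).hasFDerivAt
  have hmem : ∀ v, fderiv ℝ c.ψ z v ∈ tan M (c.ψ z) := by
    intro v
    have h1 : HasFDerivWithinAt c.ψ (fderiv ℝ c.ψ z) c.V z := hψ.hasFDerivWithinAt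
    refine tan_map h1 (fun y hy => (c.mapsψ y hy).1) ?_
    unfold tan
    refine Submodule.subset_span ?_
    rw [tangentConeAt_of_mem_nhds hVn]
    exact mem_univ v
  refine ⟨?_, ?_, ?_⟩
  · have h1 : HasFDerivAt (c.φ ∘ c.ψ) ((fderiv ℝ c.φ (c.ψ z)).comp (fderiv ℝ c.ψ z)) z :=
      hφ.comp z hψ
    have h2 : HasFDerivAt (c.φ ∘ c.ψ) (ContinuousLinearMap.id ℝ (E N)) z := by
      refine (hasFDerivAt_id z).congr_of_eventuallyEq ?_
      filter_upwards [hVn] with y hy
      exact c.left y hy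
    exact h1.unique h2
  · refine ContinuousLinearMap.ext fun v => ?_
    rw [ContinuousLinearMap.comp_apply]
    exact Pi_self (hmem v)
  · have h1 : HasFDerivWithinAt (c.ψ ∘ c.φ) ((fderiv ℝ c.ψ z).comp (fderiv ℝ c.φ (c.ψ z))) M
        (c.ψ z) := by
      have h2 : HasFDerivAt c.ψ (fderiv ℝ c.ψ z) (c.φ (c.ψ z)) := by
        rw [c.left z hz]
        exact hψ
      exact (h2.comp _ hφ).hasFDerivWithinAt
    have h3 : HasFDerivWithinAt (c.ψ ∘ c.φ) (ContinuousLinearMap.id ℝ (E K)) M (c.ψ z) := by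
      refine (hasFDerivWithinAt_id _ _).congr_of_eventuallyEq ?_ ?_
      · filter_upwards [mem_nhdsWithin_of_mem_nhds hWn, self_mem_nhdsWithin] with y hy hyM
        exact c.right y ⟨hyM, hy⟩
      · exact c.right _ ⟨hM, hW⟩
    refine ContinuousLinearMap.ext fun v => ?_
    have h4 := tan_ext h1 h3 (Pi_mem M (c.ψ z) v)
    rw [ContinuousLinearMap.comp_apply] at h4
    rw [ContinuousLinearMap.comp_apply, ContinuousLinearMap.comp_apply, h4]
    rfl

end Pool.Agent.Helper57.RZ
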