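import Pool.Agent.Helper56.RZ.GoalsB

/-! # Project RZ, packets T3 and T4: continuity of the derivative, derivative cocycles -/

set_option autoImplicit false

open Set Filter Topology

open scoped ContDiff

namespace Pool.Agent.Helper57.RZ

open Pool.Agent.Helper56.RZ

theorem t3 (h2 : StmtT2) : StmtT3 := by
  intro K M f hPi hf x hx
  have h0 : ContDiffWithinAt ℝ (0 + 1) f M x := by
    rw [zero_add]
    exact hf x hx
  rw [contDiffWithinAt_succ_iff_hasFDerivWithinAt (by simp)] at h0
  obtain ⟨u, hu, -, f', hf', hc⟩ := h0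
  rw [insert_eq_of_mem hx] at hu
  have hxu : x ∈ u := mem_of_mem_nhdsWithin hx hu
  obtain ⟨o, ho, hxo, hou⟩ := mem_nhdsWithin.1 hu
  have hc' : ContinuousWithinAt f' M x := by
    have h3 : ContinuousWithinAt f' u x := hc.continuousWithinAt
    exact h3.mono_of_mem_nhdsWithin hu
  have h4 : ContinuousWithinAt (fun y => f' y * Pi M y) M x := hc'.mul (hPi x hx)
  refine h4.congr_of_eventuallyEq ?_ ?_
  · filter_upwards [mem_nhdsWithin_of_mem_nhds (ho.mem_nhds hxo), self_mem_nhdsWithin] with y hy hyM
    refine ((h2 K M f f y hyM).1 (f' y) ?_).symm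
    refine (hf' y (hou ⟨hy, hyM⟩)).mono_of_mem_nhdsWithin ?_
    exact mem_nhdsWithin.2 ⟨o, ho, hy, hou⟩
  · refine ((h2 K M f f x hx).1 (f' x) ?_).symm
    exact (hf' x hxu).mono_of_mem_nhdsWithin hu

theorem Pi_Pi {K : ℕ} (M : Set (E K)) (x : E K) : Pi M x * Pi M x = Pi M x :=
  Submodule.isIdempotentElem_starProjection (tan M x)

theorem der_Pi {K : ℕ} (M : Set (E K)) (f : E K → E K) (x : E K) :
    der M f x * Pi M x = der M f x := by
  unfold der
  rw [mul_assoc, Pi_Pi]

theorem der_inv (h2 : StmtT2) {K : ℕ} {M : Set (E K)} {f f' : E K → E K}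
    (h : IsDiffeo 1 M f f') {x : E K} (hx : x ∈ M) : der M f' (f x) * der M f x = Pi M x := by
  have h3 : DifferentiableWithinAt ℝ f M x := (h.smooth x hx).differentiableWithinAt (by simp)
  have h4 : DifferentiableWithinAt ℝ f' M (f x) :=
    (h.smooth' (f x) (h.maps hx)).differentiableWithinAt (by simp)
  rw [← (h2 K M f' f x hx).2.2.1 h.maps h3 h4, (h2 K M (f' ∘ f) id x hx).2.2.2.2 h.left]
  exact (h2 K M f f x hx).2.2.2.1

theorem t4 (h2 : StmtT2) (h3 : StmtT3) : StmtT4 := by
  intro K M f f' hPi h
  have h' : IsDiffeo 1 M f' f := ⟨h.maps', h.maps, h.right, h.left, h.smooth', h.smooth⟩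
  let F : M ≃ₜ M :=
    { toFun := fun x => ⟨f x, h.maps x.2⟩
      invFun := fun x => ⟨f' x, h.maps' x.2⟩
      left_inv := fun x => Subtype.ext (h.left x x.2)
      right_inv := fun x => Subtype.ext (h.right x x.2)
      continuous_toFun := by
        have h4 := continuousOn_iff_continuous_domRestrict.1 h.smooth.continuousOn
        exact h4.subtype_mk _
      continuous_invFun := by
        have h4 := continuousOn_iff_continuous_domRestrict.1 h.smooth'.continuousOn
        exact h4.subtype_mk _ }
  have hF : ∀ x : M, ((F x : M) : E K) = f x := fun _ => rfl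
  have hF' : ∀ x : M, ((F.symm x : M) : E K) = f' x := fun _ => rfl
  have hTA : ∀ x : M, Pi M (f x) * der M f x = der M f x := fun x =>
    (h2 K M f f x x.2).2.1 h.maps ((h.smooth x x.2).differentiableWithinAt (by simp))
  have hTB : ∀ x : M, Pi M (f' x) * der M f' x = der M f' x := fun x =>
    (h2 K M f' f' x x.2).2.1 h.maps' ((h.smooth' x x.2).differentiableWithinAt (by simp))
  refine ⟨{ f := F
            A := fun x => der M f x
            B := fun x => der M f' x
            T := fun x => Pi M x
            contA := continuousOn_iff_continuous_domRestrict.1 (h3 K M f hPi h.smooth)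
            contB := continuousOn_iff_continuous_domRestrict.1 (h3 K M f' hPi h.smooth')
            contT := continuousOn_iff_continuous_domRestrict.1 hPi
            TT := fun x => Pi_Pi M x
            AT := fun x => der_Pi M f x
            TA := hTA
            BT := fun x => der_Pi M f' x
            TB := hTB
            BA := fun x => der_inv h2 h x.2
            AB := fun x => ?_ }, ⟨hF, hF', fun _ => rfl, fun _ => rfl, fun _ => rfl⟩⟩
  have h5 := der_inv h2 h' (h.maps x.2)
  rw [h.left x x.2] at h5
  exact h5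

end Pool.Agent.Helper57.RZ
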