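import Mathlib
import Pool.Agent.Helper56.RZ.GoalsD

/-!
# MP_f32c9c_an, project RZ, packet SK: the integrand is smooth
-/

set_option autoImplicit false

open Set Filter Topology MeasureTheory

open scoped ContDiff

namespace Pool.Agent.Helper57.RZ

open Pool.Agent.Helper56.RZ

theorem dt_eq {K : ℕ} (Z : End K) :
    dt Z = ∑ σ : Equiv.Perm (Fin K), ((Equiv.Perm.sign σ : ℤ) : ℝ) *
        ∏ i, (Z ((EuclideanSpace.basisFun (Fin K) ℝ).toBasis i)) (σ i) := by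
  unfold dt
  rw [← LinearMap.det_toMatrix (EuclideanSpace.basisFun (Fin K) ℝ).toBasis, Matrix.det_apply']
  refine Finset.sum_congr rfl fun σ _ => ?_
  congr 1
  refine Finset.prod_congr rfl fun i _ => ?_
  rw [LinearMap.toMatrix_apply]
  simp

theorem dt_smooth (K : ℕ) : ContDiff ℝ ∞ fun Z : End K => dt Z := by
  have h1 : (fun Z : End K => dt Z) =
      fun Z => ∑ σ : Equiv.Perm (Fin K), ((Equiv.Perm.sign σ : ℤ) : ℝ) *
        ∏ i, (Z ((EuclideanSpace.basisFun (Fin K) ℝ).toBasis i)) (σ i) := funext dt_eq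
  rw [h1]
  refine ContDiff.sum fun σ _ => contDiff_const.mul (contDiff_prod fun i _ => ?_)
  have h2 : ContDiff ℝ ∞ fun Z : End K =>
      Z ((EuclideanSpace.basisFun (Fin K) ℝ).toBasis i) :=
    contDiff_id.clm_apply contDiff_const
  exact (contDiff_euclidean.1 h2) (σ i)

theorem dt_ne_zero {K : ℕ} {Z : End K} (h : ‖Z‖ < 1) : dt (1 + Z) ≠ 0 := by
  have h1 : IsUnit (1 + Z : End K) := by
    have := isUnit_one_sub_of_norm_lt_one (x := -Z) (by rwa [norm_neg])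
    rwa [sub_neg_eq_add] at this
  have h2 : IsUnit (ContinuousLinearMap.toLinearMapRingHom (1 + Z : End K)) := h1.map _
  have h3 := h2.map LinearMap.det
  exact h3.ne_zero

theorem fd_aux {N : ℕ} (F G : ℝ → E N → E N)
    (hF : ContDiff ℝ ∞ fun x : ℝ × E N => F x.1 x.2)
    (hG : ContDiff ℝ ∞ fun x : ℝ × E N => G x.1 x.2) :
    ContDiff ℝ ∞ fun x : ℝ × E N => fderiv ℝ (F x.1) (G (-x.1) x.2) := by
  have hg : ContDiff ℝ ∞ fun x : ℝ × E N => G (-x.1) x.2 :=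
    hG.comp (contDiff_fst.neg.prodMk contDiff_snd)
  have hf : ContDiff ℝ ∞ fun y : (ℝ × E N) × E N => F y.1.1 y.2 :=
    hF.comp ((contDiff_fst.comp contDiff_fst).prodMk contDiff_snd)
  have hf' : ContDiff ℝ ∞ (Function.uncurry fun (x : ℝ × E N) (z : E N) => F x.1 z) := hf
  exact ContDiff.fderiv hf' hg le_rfl

theorem Dd_smooth (hA : StmtTA) (hL : StmtTL) {N : ℕ} {p : Fin 3 → End N} (hp : Proj3 p)
    (d : Tw N p) : ContDiff ℝ ∞ fun x : ℝ × E N => d.Dd x.1 x.2 := by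
  obtain ⟨a1, a2, -, -⟩ := hL
  exact fd_aux (fun t z => d.Ha th2 t z) (fun t z => d.Ha th t z) (hA N p hp d th2 a2).1
    (hA N p hp d th a1).1

theorem det_ne {N : ℕ} {P P' D D' : End N} {R e η : ℝ} (hPP : P * P = P) (hR : 1 ≤ R)
    (hP : ‖P‖ ≤ R) (hP' : ‖P'‖ ≤ R) (he : ‖D - 1‖ ≤ e) (he' : ‖D' - 1‖ ≤ e) (he1 : e ≤ 1)
    (hη : ‖P' - P‖ ≤ 2 * η) (hs : R ^ 2 * (3 * R * e + 2 * η) < 1) :
    dt (P * (D' * P' * D) * P + 1 - P) ≠ 0 := by
  have e0 : 0 ≤ e := (norm_nonneg _).trans he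
  have η0 : 0 ≤ 2 * η := (norm_nonneg _).trans hη
  have hD : ‖D‖ ≤ 2 := by
    have h1 : D = (D - 1) + 1 := by abel
    have h2 : ‖(1 : End N)‖ ≤ 1 := ContinuousLinearMap.norm_id_le
    rw [h1]
    exact (norm_add_le _ _).trans (by linarith)
  have h1 : P * (D' * P' * D) * P + 1 - P = 1 + P * (D' * P' * D - P) * P := by
    rw [mul_sub, sub_mul, hPP, hPP]; abel
  rw [h1]
  apply dt_ne_zero
  have h2 : D' * P' * D - P = (D' - 1) * P' * D + P' * (D - 1) + (P' - P) := by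
    rw [sub_mul, sub_mul, one_mul, mul_sub, mul_one]
    abel
  have h3 : ‖D' * P' * D - P‖ ≤ 3 * R * e + 2 * η := by
    rw [h2]
    have k1 : ‖(D' - 1) * P' * D‖ ≤ e * R * 2 := by
      refine (norm_mul_le _ _).trans ?_
      refine mul_le_mul ?_ hD (norm_nonneg _) (by positivity)
      exact (norm_mul_le _ _).trans (mul_le_mul he' hP' (norm_nonneg _) e0)
    have k2 : ‖P' * (D - 1)‖ ≤ R * e :=
      (norm_mul_le _ _).trans (mul_le_mul hP' he (norm_nonneg _) (by linarith))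
    refine (norm_add_le _ _).trans ?_
    refine (add_le_add ((norm_add_le _ _).trans (add_le_add k1 k2)) hη).trans ?_
    linarith
  have h4 : ‖P * (D' * P' * D - P) * P‖ ≤ R * (3 * R * e + 2 * η) * R := by
    refine (norm_mul_le _ _).trans ?_
    refine mul_le_mul ?_ hP (norm_nonneg _) (by positivity)
    exact (norm_mul_le _ _).trans (mul_le_mul hP h3 (norm_nonneg _) (by linarith))
  refine h4.trans_lt ?_
  calc R * (3 * R * e + 2 * η) * R = R ^ 2 * (3 * R * e + 2 * η) := by ring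
    _ < 1 := hs

/-- the argument of the determinant. -/
noncomputable def arg {N : ℕ} (D : ℝ → E N → End N) (i : Fin 3)
    (w : ℝ × ℝ × E N × E N × (Fin 3 → End N) × (Fin 3 → End N)) : End N :=
  w.2.2.2.2.1 i * (D (-w.2.1) w.2.2.2.1 * w.2.2.2.2.2 i * D w.2.1 w.2.2.2.1) *
    w.2.2.2.2.1 i + 1 - w.2.2.2.2.1 i

theorem arg_smooth {N : ℕ} (D : ℝ → E N → End N)
    (hD : ContDiff ℝ ∞ fun x : ℝ × E N => D x.1 x.2) (i : Fin 3) :
    ContDiff ℝ ∞ (arg D i) := by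
  have ht : ContDiff ℝ ∞ fun w : ℝ × ℝ × E N × E N × (Fin 3 → End N) × (Fin 3 → End N) =>
      w.2.1 := contDiff_snd.fst
  have hs : ContDiff ℝ ∞ fun w : ℝ × ℝ × E N × E N × (Fin 3 → End N) × (Fin 3 → End N) =>
      w.2.2.2.1 := contDiff_snd.snd.snd.fst
  have hP : ContDiff ℝ ∞ fun w : ℝ × ℝ × E N × E N × (Fin 3 → End N) × (Fin 3 → End N) =>
      w.2.2.2.2.1 i := (contDiff_apply ℝ (End N) i).comp contDiff_snd.snd.snd.snd.fst
  have hP' : ContDiff ℝ ∞ fun w : ℝ × ℝ × E N × E N × (Fin 3 → End N) × (Fin 3 → End N) =>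
      w.2.2.2.2.2 i := (contDiff_apply ℝ (End N) i).comp contDiff_snd.snd.snd.snd.snd
  have h1 : ContDiff ℝ ∞ fun w : ℝ × ℝ × E N × E N × (Fin 3 → End N) × (Fin 3 → End N) =>
      D w.2.1 w.2.2.2.1 := hD.comp (ht.prodMk hs)
  have h2 : ContDiff ℝ ∞ fun w : ℝ × ℝ × E N × E N × (Fin 3 → End N) × (Fin 3 → End N) =>
      D (-w.2.1) w.2.2.2.1 := hD.comp (ht.neg.prodMk hs)
  have m : ∀ {f g : ℝ × ℝ × E N × E N × (Fin 3 → End N) × (Fin 3 → End N) → End N},
      ContDiff ℝ ∞ f → ContDiff ℝ ∞ g → ContDiff ℝ ∞ fun w => f w * g w := fun hf hg =>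
    hf.clm_comp hg
  exact ((m (m hP (m (m h2 hP') h1)) hP).add contDiff_const).sub hP

theorem chi_aux {N : ℕ} (χ : E N → ℝ) (hχ : ContDiff ℝ ∞ χ) (G : ℝ → E N → E N)
    (hG : ContDiff ℝ ∞ fun x : ℝ × E N => G x.1 x.2) :
    ContDiff ℝ ∞ fun w : ℝ × ℝ × E N × E N × (Fin 3 → End N) × (Fin 3 → End N) =>
      χ (w.2.2.1 - w.1 • G (-w.2.1) w.2.2.2.1) := by
  have h1 : ContDiff ℝ ∞ fun w : ℝ × ℝ × E N × E N × (Fin 3 → End N) × (Fin 3 → End N) =>
      G (-w.2.1) w.2.2.2.1 :=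
    hG.comp (contDiff_snd.fst.neg.prodMk contDiff_snd.snd.snd.fst)
  exact hχ.comp (contDiff_snd.snd.fst.sub (contDiff_fst.smul h1))

theorem sk (hA : StmtTA) (hE : StmtTE) (hL : StmtTL) : StmtSK := by
  intro N p hp d
  obtain ⟨c, hc1, hc⟩ := hE N p hp d th2 hL.2.1
  set R : ℝ := ∑ i, ‖p i‖ + 1 with hRdef
  have hpi : ∀ i, ‖p i‖ ≤ R - 1 := fun i => by
    rw [hRdef]
    have := Finset.single_le_sum (f := fun i => ‖p i‖) (fun j _ => norm_nonneg _)
      (Finset.mem_univ i)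
    simpa using this
  have hR : 1 ≤ R := by
    have := (norm_nonneg _).trans (hpi 0)
    linarith
  have hR3 : 0 < 12 * c * R ^ 3 := by positivity
  have hR2 : 0 < 8 * R ^ 2 := by positivity
  have hR3' : 1 ≤ 12 * c * R ^ 3 := by
    have h1 : (1 : ℝ) ≤ R ^ 3 := one_le_pow₀ hR
    nlinarith
  have hR2' : 1 ≤ 8 * R ^ 2 := by
    have h1 : (1 : ℝ) ≤ R ^ 2 := one_le_pow₀ hR
    nlinarith
  refine ⟨1 / (12 * c * R ^ 3), 1 / (8 * R ^ 2), by positivity, ?_, by positivity, ?_⟩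
  · exact (div_le_one hR3).2 hR3'
  intro χ hχ
  have hDs := Dd_smooth hA hL hp d
  refine ⟨{w | dt (arg d.Dd 0 w) ≠ 0 ∧ dt (arg d.Dd 2 w) ≠ 0}, ?_, ?_, ?_⟩
  · have h0 : Continuous fun w => dt (arg d.Dd 0 w) :=
      ((dt_smooth N).comp (arg_smooth d.Dd hDs 0)).continuous
    have h2 : Continuous fun w => dt (arg d.Dd 2 w) :=
      ((dt_smooth N).comp (arg_smooth d.Dd hDs 2)).continuous
    exact (isOpen_ne_fun h0 continuous_const).inter (isOpen_ne_fun h2 continuous_const)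
  · have hS := (hA N p hp d th hL.1).1
    have hχ' := chi_aux χ hχ (fun t z => d.Ha th t z) hS
    have hph : ∀ i : Fin 3, ContDiffOn ℝ ∞ (fun w => Real.log (dt (arg d.Dd i w)))
        {w | dt (arg d.Dd i w) ≠ 0} := fun i =>
      ((dt_smooth N).comp (arg_smooth d.Dd hDs i)).contDiffOn.log fun w hw => hw
    have hph0 := (hph 0).mono (s := {w | dt (arg d.Dd 0 w) ≠ 0})
      (t := {w | dt (arg d.Dd 0 w) ≠ 0 ∧ dt (arg d.Dd 2 w) ≠ 0}) fun w hw => hw.1
    have hph2 := (hph 2).mono (s := {w | dt (arg d.Dd 2 w) ≠ 0})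
      (t := {w | dt (arg d.Dd 0 w) ≠ 0 ∧ dt (arg d.Dd 2 w) ≠ 0}) fun w hw => hw.2
    refine (hχ'.contDiffOn.mul (hph0.sub hph2)).congr fun w _ => ?_
    unfold kk Ps Ph
    rw [Real.log_abs, Real.log_abs]
    rfl
  · intro ρ t z s P P' ht hP hP' hPp hP'p
    have ht1 : |t| ≤ 1 := ht.trans ((div_le_one hR3).2 hR3')
    have hη1 : 1 / (8 * R ^ 2) ≤ 1 := (div_le_one hR2).2 hR2'
    have hn : ∀ (Q : Fin 3 → End N), (∀ i, ‖Q i - p i‖ ≤ 1 / (8 * R ^ 2)) → ∀ i, ‖Q i‖ ≤ R := by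
      intro Q hQ i
      have h1 : Q i = (Q i - p i) + p i := by abel
      rw [h1]
      refine (norm_add_le _ _).trans ?_
      have := hQ i
      have := hpi i
      linarith
    have hD : ‖d.Dd t s - 1‖ ≤ c * |t| := (hc t _ ht1).2
    have hD' : ‖d.Dd (-t) s - 1‖ ≤ c * |t| := by
      have := (hc (-t) (d.Ha th (- -t) s) (by rwa [abs_neg])).2
      rwa [abs_neg] at this
    have hct : c * |t| ≤ 1 / (12 * R ^ 3) := by
      have h1 : c * |t| ≤ c * (1 / (12 * c * R ^ 3)) := by gcongr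
      refine h1.trans (le_of_eq ?_)
      field_simp
    have hct1 : c * |t| ≤ 1 := by
      refine hct.trans ?_
      rw [div_le_one (by positivity)]
      have h1 : (1 : ℝ) ≤ R ^ 3 := one_le_pow₀ hR
      linarith
    have key : ∀ i, dt (arg d.Dd i (ρ, t, z, s, P, P')) ≠ 0 := by
      intro i
      refine det_ne (R := R) (e := c * |t|) (η := 1 / (8 * R ^ 2)) ?_ hR (hn P hPp i)
        (hn P' hP'p i) hD hD' hct1 ?_ ?_
      · have := hP.proj i i
        rwa [if_pos rfl] at this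
      · have h1 : P' i - P i = (P' i - p i) - (P i - p i) := by abel
        rw [h1]
        refine (norm_sub_le _ _).trans ?_
        have := hPp i
        have := hP'p i
        linarith
      · have h1 : R ^ 2 * (3 * R * (c * |t|) + 2 * (1 / (8 * R ^ 2)))
            ≤ R ^ 2 * (3 * R * (1 / (12 * R ^ 3)) + 2 * (1 / (8 * R ^ 2))) := by gcongr
        refine h1.trans_lt ?_
        have h2 : R ^ 2 * (3 * R * (1 / (12 * R ^ 3)) + 2 * (1 / (8 * R ^ 2))) = 1 / 2 := by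
          field_simp
          norm_num
        rw [h2]
        norm_num
    exact ⟨key 0, key 2⟩

end Pool.Agent.Helper57.RZ
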